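import Pool.Agent.Q286.EW.Stm

/-! # The test function (job EW-TST) -/

set_option autoImplicit false
set_option linter.unusedVariables false
set_option maxHeartbeats 2000000

open Complex Filter Topology Set MeasureTheory
open scoped ComplexConjugate

namespace Pool.Agent.Q149.EW

open Pool.Agent Pool.Agent.Y23.G Pool.Agent.Q286.EW
open Pool.Agent.Y23 (TT Fa N2 TT_mul_exp plancherel int_TT_sq)

lemma pq (x : ℝ) : (1 / (1 + |x|)) ^ 2 ≤ 1 / (1 + x ^ 2) := by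
  rw [div_pow, one_pow]
  apply one_div_le_one_div_of_le (by positivity)
  rw [← sq_abs x]
  nlinarith [abs_nonneg x]

lemma cube_le (x : ℝ) {C : ℝ} (hC : 0 ≤ C) : C / (1 + |x|) ^ 3 ≤ C * (1 / (1 + |x|)) := by
  rw [mul_one_div]
  refine div_le_div_of_nonneg_left hC (by positivity) ?_
  exact le_self_pow₀ (by linarith [abs_nonneg x]) (by norm_num)

lemma ptw (A1 A2 T1 T2 e1 e2 : ℂ) (Ck P τ p q : ℝ) (hCk : 0 ≤ Ck) (hP : 0 ≤ P) (hτ : 0 ≤ τ) (hτ1 : τ ≤ 1)
    (hp : 0 ≤ p) (hq : 0 ≤ q) (h1 : ‖A1‖ ≤ 1) (h2 : ‖A2‖ ≤ 1) (h3 : ‖T1‖ ≤ Ck * q) (h4 : ‖T2‖ ≤ Ck * q)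
    (h5 : ‖e1‖ ≤ P * τ * (p + q)) (h6 : ‖e2‖ ≤ P * τ * (p + q)) :
    ((A1 * T1 + e1) * conj (A2 * T2 + e2)).re ≤ (A1 * conj A2 * (T1 * conj T2)).re +
      (2 * Ck * P + P ^ 2) * τ * (p + q) ^ 2 := by
  have e : (A1 * T1 + e1) * conj (A2 * T2 + e2) = A1 * conj A2 * (T1 * conj T2) +
      (A1 * T1 * conj e2 + e1 * conj (A2 * T2) + e1 * conj e2) := by
    rw [map_add, map_mul]; ring
  rw [e, Complex.add_re]
  refine add_le_add le_rfl ?_
  refine (Complex.re_le_norm _).trans ?_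
  refine (norm_add₃_le).trans ?_
  rw [norm_mul, norm_mul, norm_mul, norm_mul, RCLike.norm_conj, RCLike.norm_conj, norm_mul]
  have g1 : ‖A1‖ * ‖T1‖ ≤ Ck * q := by
    calc ‖A1‖ * ‖T1‖ ≤ 1 * (Ck * q) := mul_le_mul h1 h3 (norm_nonneg _) zero_le_one
      _ = _ := one_mul _
  have g2 : ‖A2‖ * ‖T2‖ ≤ Ck * q := by
    calc ‖A2‖ * ‖T2‖ ≤ 1 * (Ck * q) := mul_le_mul h2 h4 (norm_nonneg _) zero_le_one
      _ = _ := one_mul _
  have g3 : ‖A1‖ * ‖T1‖ * ‖e2‖ ≤ Ck * q * (P * τ * (p + q)) :=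
    mul_le_mul g1 h6 (norm_nonneg _) (by positivity)
  have g4 : ‖e1‖ * (‖A2‖ * ‖T2‖) ≤ P * τ * (p + q) * (Ck * q) :=
    mul_le_mul h5 g2 (by positivity) (by positivity)
  have g5 : ‖e1‖ * ‖e2‖ ≤ P * τ * (p + q) * (P * τ * (p + q)) :=
    mul_le_mul h5 h6 (norm_nonneg _) (by positivity)
  have g6 : Ck * q * (P * τ * (p + q)) ≤ Ck * P * τ * (p + q) ^ 2 := by
    have : 0 ≤ Ck * P * τ * (p + q) * p := by positivity
    nlinarith
  have g7 : P * τ * (p + q) * (P * τ * (p + q)) ≤ P ^ 2 * τ * (p + q) ^ 2 := by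
    have h7 : 0 ≤ P ^ 2 * (p + q) ^ 2 := by positivity
    have h8 : τ * τ ≤ τ := by nlinarith
    calc _ = P ^ 2 * (p + q) ^ 2 * (τ * τ) := by ring
      _ ≤ P ^ 2 * (p + q) ^ 2 * τ := mul_le_mul_of_nonneg_left h8 h7
      _ = _ := by ring
  nlinarith

lemma Lg_le_add (t : ℝ) : Lg t ≤ 2 + |t| := by
  unfold Lg
  have := Real.log_le_sub_one_of_pos (show 0 < 3 + |t| by positivity)
  linarith

lemma sq_le_exp {a : ℝ} (ha : 0 ≤ a) : a ^ 2 ≤ 2 * Real.exp a := by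
  have := Real.pow_div_factorial_le_exp a ha 2
  rw [div_le_iff₀ (by positivity)] at this
  have e : ((Nat.factorial 2 : ℕ) : ℝ) = 2 := by norm_num [Nat.factorial]
  rw [e] at this
  linarith

lemma four_le_exp {a : ℝ} (ha : 0 ≤ a) : a ^ 4 ≤ 24 * Real.exp a := by
  have := Real.pow_div_factorial_le_exp a ha 4
  rw [div_le_iff₀ (by positivity)] at this
  have e : ((Nat.factorial 4 : ℕ) : ℝ) = 24 := by norm_num [Nat.factorial]
  rw [e] at this
  linarith

/-- the main part is at most `- c0` at one zero and at most `0` elsewhere -/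
lemma main_part {κ : ℝ → ℂ} {c0 : ℝ} (hc0 : 0 < c0)
    (hκp : ∀ u : ℂ, ‖u‖ ≤ 2 → c0 ≤ (Y23.TT κ u * (starRingEnd ℂ) (Y23.TT κ (-(starRingEnd ℂ) u))).re)
    {γ : ℝ} {F : ℂ → ℂ} {w : ℂ} (h : (F w = 0 ∧ F (-(starRingEnd ℂ) w) = 0) ∨
      (‖F w‖ = 1 ∧ F (-(starRingEnd ℂ) w) = -F w ∧ ‖w - γ * Complex.I‖ ≤ 2)) :
    (F w * conj (F (-conj w)) * (TT κ (-(γ * I) + w) * conj (TT κ (-(γ * I) + -conj w)))).re ≤
      if F w = 0 then 0 else -c0 := by
  rcases h with h | h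
  · rw [if_pos h.1, h.1]; simp
  · have h0 : F w ≠ 0 := fun h0 => by
      have := h.1
      rw [h0, norm_zero] at this
      exact zero_ne_one this
    rw [if_neg h0]
    have e1 : F w * conj (F (-conj w)) = -1 := by
      rw [h.2.1, map_neg, mul_neg, Complex.mul_conj, Complex.normSq_eq_norm_sq, h.1]
      norm_num
    have e2 : -(γ * I) + -conj w = -conj (-(γ * I) + w) := by
      rw [map_add, map_neg, map_mul, Complex.conj_ofReal, Complex.conj_I]
      ring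
    have e3 : ‖-(γ * I) + w‖ ≤ 2 := by
      have : -(γ * I) + w = w - γ * I := by ring
      rw [this]; exact h.2.2
    have := hκp _ e3
    rw [e1, e2, neg_one_mul, Complex.neg_re]
    linarith

/-- the convolution with the kernel -/
lemma conv_part {a h γ K D Ck : ℝ} (hh : 0 < h) (hha : h ≤ a) (hKD : 0 ≤ K * D) (hCk : 0 < Ck) {f κ : ℝ → ℂ}
    (hf : Fa (a - h) f) (hκF : Fa h κ) (hκb : ∀ x, ‖κ x‖ ≤ Ck)
    (hκd : ∀ u : ℂ, |u.re| ≤ 1 → ‖TT κ u‖ ≤ Ck / (1 + |u.im|) ^ 3)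
    (hfl : ∀ v : ℝ, ‖TT f (v * I)‖ ≤ K * D) :
    ∃ G : ℝ → ℂ, Hd a G ∧ (∀ w, TT G w = TT f w * TT κ (-(γ * I) + w)) ∧ N2 G ≤ (K * D * Ck) ^ 2 / 2 := by
  set κ' : ℝ → ℂ := fun x => κ x * cexp (-(γ * I) * x) with hκ'
  have hκ'F : Fa h κ' := hκF.mul_bdd (g := fun x : ℝ => cexp (-(γ * I) * x)) (by fun_prop)
  have hκ'T : ∀ w, TT κ' w = TT κ (-(γ * I) + w) := fun w => TT_mul_exp _ _ _
  have hκ'b : ∀ x, ‖κ' x‖ ≤ Ck := by
    intro x
    simp only [hκ']
    rw [norm_mul, Complex.norm_exp]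
    have : (-(γ * I) * (x : ℂ)).re = 0 := by simp
    rw [this, Real.exp_zero, mul_one]
    exact hκb x
  obtain ⟨G, hG, hGT⟩ := conv_TT hf hκ'F hκ'b
  rw [sub_add_cancel] at hG
  simp only [hκ'T] at hGT
  have hb : ∀ v : ℝ, ‖TT G (v * I)‖ ≤ K * D * Ck * (1 / (1 + |v - γ|)) := by
    intro v
    rw [hGT, norm_mul]
    have e1 : (-(γ * I) + (v : ℂ) * I).re = 0 := by simp
    have e2 : (-(γ * I) + (v : ℂ) * I).im = v - γ := by simp; ring
    have h1 := hκd (-(γ * I) + v * I) (by rw [e1, abs_zero]; exact zero_le_one)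
    rw [e2] at h1
    calc _ ≤ (K * D) * (Ck * (1 / (1 + |v - γ|))) :=
          mul_le_mul (hfl v) (h1.trans (cube_le _ hCk.le)) (norm_nonneg _) hKD
      _ = _ := by ring
  have hd : Hd a G := by
    refine F.Hd_of_bound hG (C := K * D * Ck) (c := γ) fun v => ?_
    have h1 := hb v
    have h2 : 0 < 1 + |v - γ| := by positivity
    rw [mul_one_div, le_div_iff₀ h2] at h1
    linarith
  refine ⟨G, hd, hGT, ?_⟩
  have h1 := plancherel hG
  have h2 : ∫ v : ℝ, ‖TT G (v * I)‖ ^ 2 ≤ ∫ v : ℝ, (K * D * Ck) ^ 2 * (1 + (v - γ) ^ 2)⁻¹ := by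
    refine integral_mono (int_TT_sq hG) ((integrable_inv_one_add_sq.comp_sub_right γ).const_mul _) fun v => ?_
    have h4 := pow_le_pow_left₀ (norm_nonneg _) (hb v) 2
    rw [mul_pow] at h4
    refine h4.trans ?_
    refine mul_le_mul_of_nonneg_left ?_ (by positivity)
    rw [← one_div]
    exact pq _
  rw [integral_const_mul, integral_sub_right_eq_self (fun v : ℝ => (1 + v ^ 2)⁻¹) γ, integral_univ_inv_one_add_sq, h1] at h2
  have hpi := Real.pi_pos
  have h3 : 2 * Real.pi * N2 G ≤ 2 * Real.pi * ((K * D * Ck) ^ 2 / 2) := by linarith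
  exact le_of_mul_le_mul_left h3 (by positivity)

lemma node_bound {y γ : ℝ} (h : 2 * |γ| ≤ |y|) : 1 / (1 + |y - γ|) ^ 3 ≤ 8 / (1 + |y|) ^ 3 := by
  have h1 : |y| - |γ| ≤ |y - γ| := abs_sub_abs_le_abs_sub y γ
  have h2 : (1 + |y|) / 2 ≤ 1 + |y - γ| := by linarith [abs_nonneg y]
  have h3 : 0 < (1 + |y|) / 2 := by positivity
  calc 1 / (1 + |y - γ|) ^ 3 ≤ 1 / ((1 + |y|) / 2) ^ 3 :=
        one_div_le_one_div_of_le (by positivity) (pow_le_pow_left₀ h3.le h2 3)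
    _ = _ := by
        field_simp
        norm_num

lemma sum_part [D : ZD] [EC : ZC] {g : ℝ → ℂ} (hD : Dom g) {Kz c0 M γ τ : ℝ} (hM : 0 ≤ M) (hτ : 0 ≤ τ) (hKz : 0 ≤ Kz) (hc0 : 0 ≤ c0)
    (hz : ∀ t : ℝ, ∑' ρ : Zt, (mu ρ : ℝ) * (1 / (1 + ((ρ : ℂ).im - t) ^ 2)) ≤ Kz * Lg t)
    (ρ0 : Zt)
    (hb : ∀ ρ : Zt, (GG g g ((ρ : ℂ) - 1 / 2)).re ≤ (if ρ = ρ0 then -c0 else 0) +
      M * τ * (1 / (1 + ((ρ : ℂ).im - 0) ^ 2) + 1 / (1 + ((ρ : ℂ).im - γ) ^ 2))) :
    QQ g ≤ -c0 + M * Kz * 4 * (1 + |γ|) * τ := by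
  have hsumT : Summable (fun ρ : Zt => (mu ρ : ℝ) * (GG g g ((ρ : ℂ) - 1 / 2)).re) := by
    have h1 := Complex.reCLM.summable (summable_GG hD hD)
    refine h1.congr fun ρ => ?_
    simp only [Complex.reCLM_apply]
    rw [← Complex.ofReal_natCast, Complex.re_ofReal_mul]
  have hs2 : Summable (fun ρ : Zt => (if ρ = ρ0 then -c0 else 0 : ℝ)) :=
    summable_of_ne_finset_zero (s := {ρ0}) fun b hb => by
      rw [Finset.mem_singleton] at hb
      rw [if_neg hb]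
  have hs0 := zsummable (D := D) 0
  have hs1 := zsummable (D := D) γ
  have hs3 := ((hs0.add hs1).mul_left (M * τ))
  have hle : ∀ ρ : Zt, (mu ρ : ℝ) * (GG g g ((ρ : ℂ) - 1 / 2)).re ≤ (if ρ = ρ0 then -c0 else 0 : ℝ) +
      M * τ * ((mu ρ : ℝ) * (1 / (1 + ((ρ : ℂ).im - 0) ^ 2)) + (mu ρ : ℝ) * (1 / (1 + ((ρ : ℂ).im - γ) ^ 2))) := by
    intro ρ
    have h1 := mul_le_mul_of_nonneg_left (hb ρ) (Nat.cast_nonneg (mu ρ) : (0 : ℝ) ≤ mu ρ)
    have h2 : (mu ρ : ℝ) * (if ρ = ρ0 then -c0 else 0 : ℝ) ≤ (if ρ = ρ0 then -c0 else 0 : ℝ) := by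
      split_ifs
      · have h3 : (1 : ℝ) ≤ mu ρ := by
          have : 1 ≤ mu ρ := D.mpos _ ρ.2
          exact_mod_cast this
        nlinarith
      · simp
    rw [mul_add] at h1
    refine h1.trans (add_le_add h2 (le_of_eq ?_))
    ring
  have h1 := hsumT.tsum_le_tsum hle (hs2.add hs3)
  rw [hs2.tsum_add hs3, tsum_mul_left, hs0.tsum_add hs1, tsum_ite_eq] at h1
  have h2 := hz 0
  have h3 := hz γ
  have h4 := Lg_le_add 0
  have h5 := Lg_le_add γ
  rw [abs_zero] at h4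
  have h6 : Kz * Lg 0 + Kz * Lg γ ≤ Kz * (4 * (1 + |γ|)) := by
    rw [← mul_add]
    refine mul_le_mul_of_nonneg_left ?_ hKz
    linarith [abs_nonneg γ]
  have h7 : M * τ * (∑' ρ : Zt, (mu ρ : ℝ) * (1 / (1 + ((ρ : ℂ).im - 0) ^ 2)) +
      ∑' ρ : Zt, (mu ρ : ℝ) * (1 / (1 + ((ρ : ℂ).im - γ) ^ 2))) ≤ M * τ * (Kz * (4 * (1 + |γ|))) :=
    mul_le_mul_of_nonneg_left (by linarith) (by positivity)
  have e : QQ g = ∑' ρ : Zt, (mu ρ : ℝ) * (GG g g ((ρ : ℂ) - 1 / 2)).re := rfl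
  rw [e]
  refine h1.trans ?_
  have : M * Kz * 4 * (1 + |γ|) * τ = M * τ * (Kz * (4 * (1 + |γ|))) := by ring
  rw [this]
  exact add_le_add le_rfl h7

set_option maxHeartbeats 4000000 in
/-- **TST** -/
theorem tst (hcut : S_Cut) (hker : S_Ker) : S_Tst := by
  classical
  intro L k A h hk hA hh
  have hm : (1 : ℝ) ≤ L.m := by exact_mod_cast L.raw.hm
  obtain ⟨B1, C1, hB1, hC1, hc⟩ := hcut L.m k A 1 hm hk hA zero_le_one
  obtain ⟨κ, Ck, c0, hCk, hc0, hκF, hκb, hκd, hκp⟩ := hker h hh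
  obtain ⟨Cp, hCp, hproj⟩ := F.proj
  obtain ⟨Kz, hKz, hz⟩ := zsum_le (D := zd)
  set D0 : ℝ := Real.exp (A + A * Real.log 2) + 1 with hD0
  have hD0p : 0 < D0 := by positivity
  set P0 : ℝ := 2 * (16 * Cp * Ck + Ck) with hP0
  have hP0p : 0 < P0 := by positivity
  set CN : ℝ := (D0 * Ck) ^ 2 + Cp * (16 * Ck) ^ 2 * 24 with hCN
  have hCNp : 0 < CN := by positivity
  set CQ : ℝ := 2 * (2 * Ck * P0 + P0 ^ 2) * Kz * 4 with hCQ
  have hCQp : 0 < CQ := by positivity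
  refine ⟨B1 + C1 + 4, CN + CQ, c0, by positivity, by positivity, hc0, ?_⟩
  intro a γ K τ ν F0 ha hha hK hFd hFb hKτ hτ1 hnode hzero hex
  have ha0 : 0 < a := by linarith
  have hK0 : 0 < K := by linarith
  have hτ0 : 0 < τ := lt_of_lt_of_le (by positivity) hKτ
  set E : ℝ := ck L.m k * Real.exp (2 * (a - h) / L.m) with hE
  obtain ⟨f, hf, -, hfT0⟩ := hc K F0 hK0 hFd hFb (a - h) (by linarith)
  have hfT : ∀ w : ℂ, |w.re| ≤ 1 → ‖TT f w - F0 w‖ ≤ τ := by
    intro w hw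
    refine (hfT0 w hw).trans (le_trans ?_ hKτ)
    refine mul_le_mul_of_nonneg_left ?_ hK0.le
    rw [← hE]
    have h1 : C1 ≤ Real.exp C1 := by linarith [Real.add_one_le_exp C1]
    calc C1 * Real.exp (B1 * (1 + (a - h)) - E) ≤ Real.exp C1 * Real.exp (B1 * (1 + (a - h)) - E) :=
          mul_le_mul_of_nonneg_right h1 (Real.exp_pos _).le
      _ = Real.exp (C1 + (B1 * (1 + (a - h)) - E)) := (Real.exp_add _ _).symm
      _ ≤ _ := by
          apply Real.exp_le_exp.2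
          nlinarith [mul_nonneg hB1 hh.le, mul_pos hC1 ha0]
  -- the bound on the line
  have hFl : ∀ v : ℝ, ‖F0 (v * I)‖ ≤ K * Real.exp (A + A * Real.log 2) := by
    intro v
    have e1 : ((v : ℂ) * I).im = v := by simp
    have e2 : ((v : ℂ) * I).re = 0 := by simp
    have h1 := hFb (v * I)
    rw [e1, e2, abs_zero] at h1
    have e3 : Ek L.m k A 0 = A + A * Real.log 2 := by unfold Ek; simp
    rw [e3] at h1
    refine h1.trans (div_le_self (by positivity) (by nlinarith [sq_nonneg v]))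
  have hfl : ∀ v : ℝ, ‖TT f (v * I)‖ ≤ K * D0 := by
    intro v
    have e2 : ((v : ℂ) * I).re = 0 := by simp
    have h1 := hfT (v * I) (by rw [e2, abs_zero]; exact zero_le_one)
    have h2 := hFl v
    have h3 : ‖TT f (v * I)‖ ≤ ‖TT f (v * I) - F0 (v * I)‖ + ‖F0 (v * I)‖ := by
      have := norm_add_le (TT f (v * I) - F0 (v * I)) (F0 (v * I))
      rwa [sub_add_cancel] at this
    rw [hD0, mul_add, mul_one]
    linarith
  obtain ⟨G, hG, hGT, hGN⟩ := conv_part (γ := γ) hh hha (by positivity : 0 ≤ K * D0) hCk hf hκF hκb hκd hfl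
  -- the values of the kernel
  set T : ℂ → ℂ := fun w => TT κ (-(γ * I) + w) with hT
  have hTb : ∀ w : ℂ, |w.re| ≤ 1 → ‖T w‖ ≤ Ck / (1 + |w.im - γ|) ^ 3 := by
    intro w hw
    have e1 : (-(γ * I) + w).re = w.re := by simp
    have e2 : (-(γ * I) + w).im = w.im - γ := by simp; ring
    have h1 := hκd (-(γ * I) + w) (by rw [e1]; exact hw)
    rwa [e2] at h1
  have hTb' : ∀ w : ℂ, |w.re| ≤ 1 → ‖T w‖ ≤ Ck * (1 / (1 + |w.im - γ|)) := fun w hw =>
    (hTb w hw).trans (cube_le _ hCk.le)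
  -- the nodes
  have hnd : ∀ j : ℤ, ν < (j.natAbs : ℕ∞) → ‖TT G (F.nd a j)‖ ≤ (16 * Ck * τ) / (1 + |(F.nd a j).im|) ^ 3 := by
    intro j hj
    obtain ⟨h1, h2⟩ := hnode j hj
    have hre : |(F.nd a j).re| ≤ 1 := by rw [F.nd_re, abs_zero]; exact zero_le_one
    have h3 := hfT _ hre
    have h4 := hTb _ hre
    have h5 := node_bound h2
    have h6 : ‖TT f (F.nd a j)‖ ≤ 2 * τ := by
      have := norm_add_le (TT f (F.nd a j) - F0 (F.nd a j)) (F0 (F.nd a j))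
      rw [sub_add_cancel] at this
      linarith
    have h7 : ‖T (F.nd a j)‖ ≤ Ck * (8 / (1 + |(F.nd a j).im|) ^ 3) := by
      refine h4.trans ?_
      rw [← mul_one_div]
      exact mul_le_mul_of_nonneg_left h5 hCk.le
    rw [hGT, norm_mul]
    calc _ ≤ (2 * τ) * (Ck * (8 / (1 + |(F.nd a j).im|) ^ 3)) :=
          mul_le_mul h6 h7 (norm_nonneg _) (by positivity)
      _ = _ := by ring
  obtain ⟨g, hg, hgT, hgN⟩ := hproj a ν G (16 * Ck * τ) ha (by positivity) hG hnd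
  have hexp1 : 1 ≤ Real.exp a := Real.one_le_exp ha0.le
  have hexpB : Real.exp a ≤ Real.exp ((B1 + C1 + 4) * a) := by
    apply Real.exp_le_exp.2
    nlinarith
  have hexp4 : Real.exp (4 * a) ≤ Real.exp ((B1 + C1 + 4) * a) := by
    apply Real.exp_le_exp.2
    nlinarith
  refine ⟨g, hg, ?_, ?_⟩
  · -- the norm
    have h1 : 2 * N2 G ≤ (D0 * Ck) ^ 2 * K ^ 2 := by
      have : (K * D0 * Ck) ^ 2 = (D0 * Ck) ^ 2 * K ^ 2 := by ring
      linarith
    have h2 : Cp * a ^ 4 * (16 * Ck * τ) ^ 2 ≤ Cp * (16 * Ck) ^ 2 * 24 * Real.exp a := by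
      have h3 := four_le_exp ha0.le
      have h4 : τ ^ 2 ≤ 1 := by nlinarith
      have h5 : 0 ≤ Cp * (16 * Ck) ^ 2 := by positivity
      calc Cp * a ^ 4 * (16 * Ck * τ) ^ 2 = Cp * (16 * Ck) ^ 2 * (a ^ 4 * τ ^ 2) := by ring
        _ ≤ Cp * (16 * Ck) ^ 2 * (24 * Real.exp a * 1) := by
            refine mul_le_mul_of_nonneg_left ?_ h5
            exact mul_le_mul h3 h4 (sq_nonneg _) (by positivity)
        _ = _ := by ring
    have hK2 : 1 ≤ K ^ 2 := by nlinarith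
    have h3 : (D0 * Ck) ^ 2 * K ^ 2 ≤ (D0 * Ck) ^ 2 * (Real.exp ((B1 + C1 + 4) * a) * K ^ 2) := by
      refine mul_le_mul_of_nonneg_left ?_ (sq_nonneg _)
      have : 1 ≤ Real.exp ((B1 + C1 + 4) * a) := hexp1.trans hexpB
      nlinarith
    have h4 : Cp * (16 * Ck) ^ 2 * 24 * Real.exp a ≤ Cp * (16 * Ck) ^ 2 * 24 * (Real.exp ((B1 + C1 + 4) * a) * K ^ 2) := by
      refine mul_le_mul_of_nonneg_left ?_ (by positivity)
      nlinarith [Real.exp_pos ((B1 + C1 + 4) * a)]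
    have h5 : 0 ≤ CQ * (Real.exp ((B1 + C1 + 4) * a) * K ^ 2) := by positivity
    calc N2 g ≤ 2 * N2 G + Cp * a ^ 4 * (16 * Ck * τ) ^ 2 := hgN
      _ ≤ (D0 * Ck) ^ 2 * (Real.exp ((B1 + C1 + 4) * a) * K ^ 2) +
          Cp * (16 * Ck) ^ 2 * 24 * (Real.exp ((B1 + C1 + 4) * a) * K ^ 2) := by linarith
      _ ≤ (CN + CQ) * Real.exp ((B1 + C1 + 4) * a) * K ^ 2 := by
          rw [hCN]; nlinarith
  · -- the form
    obtain ⟨w0, hw0, hFw0⟩ := hex
    have hρ0 : (1 / 2 + w0) ∈ (zd (L := L)).Zs := hw0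
    set P : ℝ := P0 * Real.exp (2 * a) with hP
    have hPp : 0 < P := by positivity
    have herr : ∀ w : ℂ, |w.re| ≤ 1 → ‖TT g w - F0 w * T w‖ ≤ P * τ * (1 / (1 + |w.im|) + 1 / (1 + |w.im - γ|)) := by
      intro w hw
      have e : TT g w - F0 w * T w = (TT f w - F0 w) * T w - (TT G w - TT g w) := by
        rw [hGT]; ring
      rw [e]
      refine (norm_sub_le _ _).trans ?_
      rw [norm_mul]
      have h1 := mul_le_mul (hfT w hw) (hTb' w hw) (norm_nonneg _) hτ0.le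
      have h2 := hgT w
      have h3 : Real.exp (a * |w.re|) ≤ Real.exp a := by
        apply Real.exp_le_exp.2
        nlinarith [abs_nonneg w.re]
      have h4 : Cp * a ^ 2 * (16 * Ck * τ) * Real.exp (a * |w.re|) / (1 + |w.im|) ≤
          (16 * Cp * Ck) * (2 * Real.exp (2 * a)) * τ * (1 / (1 + |w.im|)) := by
        have h5 := sq_le_exp ha0.le
        have h6 : a ^ 2 * Real.exp (a * |w.re|) ≤ 2 * Real.exp (2 * a) := by
          calc a ^ 2 * Real.exp (a * |w.re|) ≤ (2 * Real.exp a) * Real.exp a :=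
                mul_le_mul h5 h3 (Real.exp_pos _).le (by positivity)
            _ = 2 * Real.exp (2 * a) := by
                rw [mul_assoc, ← Real.exp_add]; congr 2; ring
        calc _ = (16 * Cp * Ck) * (a ^ 2 * Real.exp (a * |w.re|)) * τ * (1 / (1 + |w.im|)) := by ring
          _ ≤ _ := by gcongr
      have h7 : τ * (Ck * (1 / (1 + |w.im - γ|))) ≤ Ck * (2 * Real.exp (2 * a)) * τ * (1 / (1 + |w.im - γ|)) := by
        have h8 : 1 ≤ 2 * Real.exp (2 * a) := by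
          have := Real.one_le_exp (by linarith : 0 ≤ 2 * a)
          linarith
        calc τ * (Ck * (1 / (1 + |w.im - γ|))) = Ck * 1 * τ * (1 / (1 + |w.im - γ|)) := by ring
          _ ≤ _ := by gcongr
      have h9 : (16 * Cp * Ck) * (2 * Real.exp (2 * a)) * τ * (1 / (1 + |w.im|)) ≤ P * τ * (1 / (1 + |w.im|)) := by
        refine mul_le_mul_of_nonneg_right (mul_le_mul_of_nonneg_right ?_ hτ0.le) (by positivity)
        rw [hP, hP0]
        have : 0 ≤ Ck * Real.exp (2 * a) := by positivity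
        nlinarith
      have h10 : Ck * (2 * Real.exp (2 * a)) * τ * (1 / (1 + |w.im - γ|)) ≤ P * τ * (1 / (1 + |w.im - γ|)) := by
        refine mul_le_mul_of_nonneg_right (mul_le_mul_of_nonneg_right ?_ hτ0.le) (by positivity)
        rw [hP, hP0]
        have : 0 ≤ Cp * Ck * Real.exp (2 * a) := by positivity
        nlinarith
      rw [mul_add]
      linarith
    have hFle : ∀ w : ℂ, L.X (1 / 2 + w) = 0 → ‖F0 w‖ ≤ 1 ∧ ‖F0 (-conj w)‖ ≤ 1 := by
      intro w hw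
      rcases hzero w hw with h1 | h1
      · rw [h1.1, h1.2]; simp
      · rw [h1.2.1, norm_neg, h1.1]; simp
    have hmain := sum_part (g := g) (hg.hd.dom ha0) (M := 2 * (2 * Ck * P + P ^ 2)) (γ := γ) (τ := τ) (by positivity)
      hτ0.le hKz.le hc0.le hz (⟨1 / 2 + w0, hρ0⟩ : Zt) (fun ρ => by
        set w := (ρ : ℂ) - 1 / 2 with hw
        have hre : |w.re| ≤ 1 := half_re ρ
        have him : w.im = (ρ : ℂ).im := by rw [hw]; simp
        have hX : L.X (1 / 2 + w) = 0 := by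
          rw [hw, add_sub_cancel]
          exact ρ.2
        have hre' : |(-conj w).re| ≤ 1 := by
          have : (-conj w).re = -w.re := by simp
          rw [this, abs_neg]; exact hre
        have him' : (-conj w).im = w.im := by simp
        have h1 := herr w hre
        have h2 := herr (-conj w) hre'
        rw [him'] at h2
        have h3 := hTb' w hre
        have h4 := hTb' (-conj w) hre'
        rw [him'] at h4
        obtain ⟨h5, h6⟩ := hFle w hX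
        have h7 := ptw (F0 w) (F0 (-conj w)) (T w) (T (-conj w)) (TT g w - F0 w * T w)
          (TT g (-conj w) - F0 (-conj w) * T (-conj w)) Ck P τ (1 / (1 + |w.im|)) (1 / (1 + |w.im - γ|))
          hCk.le hPp.le hτ0.le hτ1 (by positivity) (by positivity) h5 h6 h3 h4 h1 h2
        rw [add_sub_cancel, add_sub_cancel] at h7
        have h8 := main_part hc0 hκp (hzero w hX)
        have h9 : (if F0 w = 0 then 0 else -c0 : ℝ) ≤ (if ρ = (⟨1 / 2 + w0, hρ0⟩ : Zt) then -c0 else 0 : ℝ) := by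
          by_cases hρ : ρ = (⟨1 / 2 + w0, hρ0⟩ : Zt)
          · have e : w = w0 := by rw [hw, hρ]; ring
            rw [if_pos hρ, if_neg (by rw [e]; exact hFw0)]
          · rw [if_neg hρ]
            split_ifs <;> linarith
        have h10 : (1 / (1 + |w.im|) + 1 / (1 + |w.im - γ|)) ^ 2 ≤
            2 * (1 / (1 + (w.im - 0) ^ 2) + 1 / (1 + (w.im - γ) ^ 2)) := by
          have g1 := pq w.im
          have g2 := pq (w.im - γ)
          rw [sub_zero]
          nlinarith [sq_nonneg (1 / (1 + |w.im|) - 1 / (1 + |w.im - γ|))]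
        have h11 : (2 * Ck * P + P ^ 2) * τ * (1 / (1 + |w.im|) + 1 / (1 + |w.im - γ|)) ^ 2 ≤
            2 * (2 * Ck * P + P ^ 2) * τ * (1 / (1 + (w.im - 0) ^ 2) + 1 / (1 + (w.im - γ) ^ 2)) := by
          have := mul_le_mul_of_nonneg_left h10 (by positivity : 0 ≤ (2 * Ck * P + P ^ 2) * τ)
          linarith
        rw [← him]
        calc (GG g g w).re = (TT g w * conj (TT g (-conj w))).re := rfl
          _ ≤ _ := h7
          _ ≤ _ := add_le_add (h8.trans h9) h11)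
    refine hmain.trans ?_
    refine add_le_add le_rfl ?_
    have h1 : 2 * (2 * Ck * P + P ^ 2) * Kz * 4 ≤ CQ * Real.exp ((B1 + C1 + 4) * a) := by
      have h2 : 2 * Ck * P + P ^ 2 ≤ (2 * Ck * P0 + P0 ^ 2) * Real.exp (4 * a) := by
        have h3 : Real.exp (2 * a) ≤ Real.exp (4 * a) := by
          apply Real.exp_le_exp.2
          linarith
        have h4 : Real.exp (2 * a) ^ 2 = Real.exp (4 * a) := by
          rw [← Real.exp_nat_mul]; congr 1; push_cast; ring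
        have h5 : 2 * Ck * P ≤ 2 * Ck * P0 * Real.exp (4 * a) := by
          rw [hP]
          have : 0 ≤ 2 * Ck * P0 := by positivity
          nlinarith
        have h6 : P ^ 2 = P0 ^ 2 * Real.exp (4 * a) := by
          rw [hP, mul_pow, h4]
        rw [h6]
        linarith
      calc _ ≤ 2 * ((2 * Ck * P0 + P0 ^ 2) * Real.exp ((B1 + C1 + 4) * a)) * Kz * 4 := by
            refine mul_le_mul_of_nonneg_right (mul_le_mul_of_nonneg_right (mul_le_mul_of_nonneg_left (h2.trans ?_) (by norm_num)) hKz.le) (by norm_num)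
            exact mul_le_mul_of_nonneg_left hexp4 (by positivity)
        _ = _ := by rw [hCQ]; ring
    have h2 : CQ * Real.exp ((B1 + C1 + 4) * a) ≤ (CN + CQ) * Real.exp ((B1 + C1 + 4) * a) := by
      refine mul_le_mul_of_nonneg_right (by linarith) (Real.exp_pos _).le
    have h3 : 0 ≤ (1 + |γ|) * τ := by positivity
    calc 2 * (2 * Ck * P + P ^ 2) * Kz * 4 * (1 + |γ|) * τ = (2 * (2 * Ck * P + P ^ 2) * Kz * 4) * ((1 + |γ|) * τ) := by ring
      _ ≤ ((CN + CQ) * Real.exp ((B1 + C1 + 4) * a)) * ((1 + |γ|) * τ) := mul_le_mul_of_nonneg_right (h1.trans h2) h3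
      _ = _ := by ring

end Pool.Agent.Q149.EW
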