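import Pool.Agent.Q286.EW.Stm2
import Pool.Agent.Q149.EW.Tst

/-! # The test function, uniformly in `k` (job EWU-TST) -/

set_option autoImplicit false
set_option linter.unusedVariables false
set_option maxHeartbeats 2000000

open Complex Filter Topology Set MeasureTheory
open scoped ComplexConjugate

namespace Pool.Agent.Q149.EW

open Pool.Agent Pool.Agent.Y23.G Pool.Agent.Q286.EW
open Pool.Agent.Y23 (TT Fa N2 TT_mul_exp plancherel int_TT_sq)

set_option maxHeartbeats 4000000 in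
/-- **TSTU** -/
theorem tstU (hcut : S_CutU) (hker : S_Ker) : S_TstU := by
  classical
  intro L A h hA hh
  have hm : (1 : ℝ) ≤ L.m := by exact_mod_cast L.raw.hm
  obtain ⟨B1, hB1, hc0'⟩ := hcut L.m A 1 hm hA zero_le_one
  obtain ⟨κ, Ck, c0, hCk, hc0, hκF, hκb, hκd, hκp⟩ := hker h hh
  obtain ⟨Cp, hCp, hproj⟩ := F.proj
  obtain ⟨Kz, hKz, hz⟩ := zsum_le (D := zd)
  set D0 : ℝ := Real.exp (A + A * Real.log 2) + 1 with hD0
  have hD0p : 0 < D0 := by positivity
  set P0 : ℝ := 2 * (16 * Cp * Ck + Ck) with hP0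
  have hP0p : 0 < P0 := by positivity
  set CN : ℝ := (D0 * Ck) ^ 2 + Cp * (16 * Ck) ^ 2 * 24 with hCN
  have hCNp : 0 < CN := by positivity
  set CQ : ℝ := 2 * (2 * Ck * P0 + P0 ^ 2) * Kz * 4 with hCQ
  have hCQp : 0 < CQ := by positivity
  refine ⟨B1 + 4 + (CN + CQ), c0, by positivity, hc0, ?_⟩
  intro k a γ K τ ν F0 hk ha hha hK hFd hFb hKτ hτ1 hnode hzero hex
  have hc := hc0' k hk
  have hfin : (CN + CQ) * Real.exp ((B1 + 4) * a) ≤ Real.exp ((B1 + 4 + (CN + CQ)) * (1 + a + |k|)) := by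
    have h1 : CN + CQ ≤ Real.exp (CN + CQ) := by linarith [Real.add_one_le_exp (CN + CQ)]
    calc (CN + CQ) * Real.exp ((B1 + 4) * a) ≤ Real.exp (CN + CQ) * Real.exp ((B1 + 4) * a) :=
          mul_le_mul_of_nonneg_right h1 (Real.exp_pos _).le
      _ = Real.exp (CN + CQ + (B1 + 4) * a) := (Real.exp_add _ _).symm
      _ ≤ _ := by
          apply Real.exp_le_exp.2
          have e1 : 0 ≤ (B1 + 4) * (1 + |k|) := by positivity
          have e2 : 0 ≤ (CN + CQ) * (a + |k|) := mul_nonneg (by positivity) (by linarith [abs_nonneg k])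
          nlinarith
  have ha0 : 0 < a := by linarith
  have hK0 : 0 < K := by linarith
  have hτ0 : 0 < τ := lt_of_lt_of_le (by positivity) hKτ
  set E : ℝ := ck L.m k * Real.exp (2 * (a - h) / L.m) with hE
  obtain ⟨f, hf, -, hfT0⟩ := hc K F0 hK0 hFd hFb (a - h) (by linarith)
  have hfT : ∀ w : ℂ, |w.re| ≤ 1 → ‖TT f w - F0 w‖ ≤ τ := by
    intro w hw
    refine (hfT0 w hw).trans (le_trans ?_ hKτ)
    refine mul_le_mul_of_nonneg_left ?_ hK0.le
    rw [← hE]
    apply Real.exp_le_exp.2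
    have e1 : 0 ≤ B1 * h := mul_nonneg hB1 hh.le
    have e2 : 0 ≤ (4 + (CN + CQ)) * (1 + a + |k|) := mul_nonneg (by positivity) (by linarith [abs_nonneg k])
    nlinarith
  -- the bound on the line
  have hFl : ∀ v : ℝ, ‖F0 (v * I)‖ ≤ K * Real.exp (A + A * Real.log 2) := by
    intro v
    have e1 : ((v : ℂ) * I).im = v := by simp
    have e2 : ((v : ℂ) * I).re = 0 := by simp
    have h1 := hFb (v * I)
    rw [e1, e2, abs_zero] at h1
    have e3 : Ek L.m k A 0 = A + A * Real.log 2 := by unfold Ek; simp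
    rw [e3] at h1
    refine h1.trans (div_le_self (by positivity) (by nlinarith [sq_nonneg v]))
  have hfl : ∀ v : ℝ, ‖TT f (v * I)‖ ≤ K * D0 := by
    intro v
    have e2 : ((v : ℂ) * I).re = 0 := by simp
    have h1 := hfT (v * I) (by rw [e2, abs_zero]; exact zero_le_one)
    have h2 := hFl v
    have h3 : ‖TT f (v * I)‖ ≤ ‖TT f (v * I) - F0 (v * I)‖ + ‖F0 (v * I)‖ := by
      have := norm_add_le (TT f (v * I) - F0 (v * I)) (F0 (v * I))
      rwa [sub_add_cancel] at this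
    rw [hD0, mul_add, mul_one]
    linarith
  obtain ⟨G, hG, hGT, hGN⟩ := conv_part (γ := γ) hh hha (by positivity : 0 ≤ K * D0) hCk hf hκF hκb hκd hfl
  -- the values of the kernel
  set T : ℂ → ℂ := fun w => TT κ (-(γ * I) + w) with hT
  have hTb : ∀ w : ℂ, |w.re| ≤ 1 → ‖T w‖ ≤ Ck / (1 + |w.im - γ|) ^ 3 := by
    intro w hw
    have e1 : (-(γ * I) + w).re = w.re := by simp
    have e2 : (-(γ * I) + w).im = w.im - γ := by simp; ring
    have h1 := hκd (-(γ * I) + w) (by rw [e1]; exact hw)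
    rwa [e2] at h1
  have hTb' : ∀ w : ℂ, |w.re| ≤ 1 → ‖T w‖ ≤ Ck * (1 / (1 + |w.im - γ|)) := fun w hw =>
    (hTb w hw).trans (cube_le _ hCk.le)
  -- the nodes
  have hnd : ∀ j : ℤ, ν < (j.natAbs : ℕ∞) → ‖TT G (F.nd a j)‖ ≤ (16 * Ck * τ) / (1 + |(F.nd a j).im|) ^ 3 := by
    intro j hj
    obtain ⟨h1, h2⟩ := hnode j hj
    have hre : |(F.nd a j).re| ≤ 1 := by rw [F.nd_re, abs_zero]; exact zero_le_one
    have h3 := hfT _ hre
    have h4 := hTb _ hre
    have h5 := node_bound h2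
    have h6 : ‖TT f (F.nd a j)‖ ≤ 2 * τ := by
      have := norm_add_le (TT f (F.nd a j) - F0 (F.nd a j)) (F0 (F.nd a j))
      rw [sub_add_cancel] at this
      linarith
    have h7 : ‖T (F.nd a j)‖ ≤ Ck * (8 / (1 + |(F.nd a j).im|) ^ 3) := by
      refine h4.trans ?_
      rw [← mul_one_div]
      exact mul_le_mul_of_nonneg_left h5 hCk.le
    rw [hGT, norm_mul]
    calc _ ≤ (2 * τ) * (Ck * (8 / (1 + |(F.nd a j).im|) ^ 3)) :=
          mul_le_mul h6 h7 (norm_nonneg _) (by positivity)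
      _ = _ := by ring
  obtain ⟨g, hg, hgT, hgN⟩ := hproj a ν G (16 * Ck * τ) ha (by positivity) hG hnd
  have hexp1 : 1 ≤ Real.exp a := Real.one_le_exp ha0.le
  have hexpB : Real.exp a ≤ Real.exp ((B1 + 4) * a) := by
    apply Real.exp_le_exp.2
    nlinarith
  have hexp4 : Real.exp (4 * a) ≤ Real.exp ((B1 + 4) * a) := by
    apply Real.exp_le_exp.2
    nlinarith
  refine ⟨g, hg, ?_, ?_⟩
  · -- the norm
    have h1 : 2 * N2 G ≤ (D0 * Ck) ^ 2 * K ^ 2 := by
      have : (K * D0 * Ck) ^ 2 = (D0 * Ck) ^ 2 * K ^ 2 := by ring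
      linarith
    have h2 : Cp * a ^ 4 * (16 * Ck * τ) ^ 2 ≤ Cp * (16 * Ck) ^ 2 * 24 * Real.exp a := by
      have h3 := four_le_exp ha0.le
      have h4 : τ ^ 2 ≤ 1 := by nlinarith
      have h5 : 0 ≤ Cp * (16 * Ck) ^ 2 := by positivity
      calc Cp * a ^ 4 * (16 * Ck * τ) ^ 2 = Cp * (16 * Ck) ^ 2 * (a ^ 4 * τ ^ 2) := by ring
        _ ≤ Cp * (16 * Ck) ^ 2 * (24 * Real.exp a * 1) := by
            refine mul_le_mul_of_nonneg_left ?_ h5
            exact mul_le_mul h3 h4 (sq_nonneg _) (by positivity)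
        _ = _ := by ring
    have hK2 : 1 ≤ K ^ 2 := by nlinarith
    have h3 : (D0 * Ck) ^ 2 * K ^ 2 ≤ (D0 * Ck) ^ 2 * (Real.exp ((B1 + 4) * a) * K ^ 2) := by
      refine mul_le_mul_of_nonneg_left ?_ (sq_nonneg _)
      have : 1 ≤ Real.exp ((B1 + 4) * a) := hexp1.trans hexpB
      nlinarith
    have h4 : Cp * (16 * Ck) ^ 2 * 24 * Real.exp a ≤ Cp * (16 * Ck) ^ 2 * 24 * (Real.exp ((B1 + 4) * a) * K ^ 2) := by
      refine mul_le_mul_of_nonneg_left ?_ (by positivity)
      nlinarith [Real.exp_pos ((B1 + 4) * a)]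
    have h5 : 0 ≤ CQ * (Real.exp ((B1 + 4) * a) * K ^ 2) := by positivity
    calc N2 g ≤ 2 * N2 G + Cp * a ^ 4 * (16 * Ck * τ) ^ 2 := hgN
      _ ≤ (D0 * Ck) ^ 2 * (Real.exp ((B1 + 4) * a) * K ^ 2) +
          Cp * (16 * Ck) ^ 2 * 24 * (Real.exp ((B1 + 4) * a) * K ^ 2) := by linarith
      _ ≤ (CN + CQ) * Real.exp ((B1 + 4) * a) * K ^ 2 := by
          rw [hCN]; nlinarith
      _ ≤ _ := mul_le_mul_of_nonneg_right hfin (sq_nonneg K)
  · -- the form
    obtain ⟨w0, hw0, hFw0⟩ := hex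
    have hρ0 : (1 / 2 + w0) ∈ (zd (L := L)).Zs := hw0
    set P : ℝ := P0 * Real.exp (2 * a) with hP
    have hPp : 0 < P := by positivity
    have herr : ∀ w : ℂ, |w.re| ≤ 1 → ‖TT g w - F0 w * T w‖ ≤ P * τ * (1 / (1 + |w.im|) + 1 / (1 + |w.im - γ|)) := by
      intro w hw
      have e : TT g w - F0 w * T w = (TT f w - F0 w) * T w - (TT G w - TT g w) := by
        rw [hGT]; ring
      rw [e]
      refine (norm_sub_le _ _).trans ?_
      rw [norm_mul]
      have h1 := mul_le_mul (hfT w hw) (hTb' w hw) (norm_nonneg _) hτ0.le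
      have h2 := hgT w
      have h3 : Real.exp (a * |w.re|) ≤ Real.exp a := by
        apply Real.exp_le_exp.2
        nlinarith [abs_nonneg w.re]
      have h4 : Cp * a ^ 2 * (16 * Ck * τ) * Real.exp (a * |w.re|) / (1 + |w.im|) ≤
          (16 * Cp * Ck) * (2 * Real.exp (2 * a)) * τ * (1 / (1 + |w.im|)) := by
        have h5 := sq_le_exp ha0.le
        have h6 : a ^ 2 * Real.exp (a * |w.re|) ≤ 2 * Real.exp (2 * a) := by
          calc a ^ 2 * Real.exp (a * |w.re|) ≤ (2 * Real.exp a) * Real.exp a :=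
                mul_le_mul h5 h3 (Real.exp_pos _).le (by positivity)
            _ = 2 * Real.exp (2 * a) := by
                rw [mul_assoc, ← Real.exp_add]; congr 2; ring
        calc _ = (16 * Cp * Ck) * (a ^ 2 * Real.exp (a * |w.re|)) * τ * (1 / (1 + |w.im|)) := by ring
          _ ≤ _ := by gcongr
      have h7 : τ * (Ck * (1 / (1 + |w.im - γ|))) ≤ Ck * (2 * Real.exp (2 * a)) * τ * (1 / (1 + |w.im - γ|)) := by
        have h8 : 1 ≤ 2 * Real.exp (2 * a) := by
          have := Real.one_le_exp (by linarith : 0 ≤ 2 * a)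
          linarith
        calc τ * (Ck * (1 / (1 + |w.im - γ|))) = Ck * 1 * τ * (1 / (1 + |w.im - γ|)) := by ring
          _ ≤ _ := by gcongr
      have h9 : (16 * Cp * Ck) * (2 * Real.exp (2 * a)) * τ * (1 / (1 + |w.im|)) ≤ P * τ * (1 / (1 + |w.im|)) := by
        refine mul_le_mul_of_nonneg_right (mul_le_mul_of_nonneg_right ?_ hτ0.le) (by positivity)
        rw [hP, hP0]
        have : 0 ≤ Ck * Real.exp (2 * a) := by positivity
        nlinarith
      have h10 : Ck * (2 * Real.exp (2 * a)) * τ * (1 / (1 + |w.im - γ|)) ≤ P * τ * (1 / (1 + |w.im - γ|)) := by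
        refine mul_le_mul_of_nonneg_right (mul_le_mul_of_nonneg_right ?_ hτ0.le) (by positivity)
        rw [hP, hP0]
        have : 0 ≤ Cp * Ck * Real.exp (2 * a) := by positivity
        nlinarith
      rw [mul_add]
      linarith
    have hFle : ∀ w : ℂ, L.X (1 / 2 + w) = 0 → ‖F0 w‖ ≤ 1 ∧ ‖F0 (-conj w)‖ ≤ 1 := by
      intro w hw
      rcases hzero w hw with h1 | h1
      · rw [h1.1, h1.2]; simp
      · rw [h1.2.1, norm_neg, h1.1]; simp
    have hmain := sum_part (g := g) (hg.hd.dom ha0) (M := 2 * (2 * Ck * P + P ^ 2)) (γ := γ) (τ := τ) (by positivity)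
      hτ0.le hKz.le hc0.le hz (⟨1 / 2 + w0, hρ0⟩ : Zt) (fun ρ => by
        set w := (ρ : ℂ) - 1 / 2 with hw
        have hre : |w.re| ≤ 1 := half_re ρ
        have him : w.im = (ρ : ℂ).im := by rw [hw]; simp
        have hX : L.X (1 / 2 + w) = 0 := by
          rw [hw, add_sub_cancel]
          exact ρ.2
        have hre' : |(-conj w).re| ≤ 1 := by
          have : (-conj w).re = -w.re := by simp
          rw [this, abs_neg]; exact hre
        have him' : (-conj w).im = w.im := by simp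
        have h1 := herr w hre
        have h2 := herr (-conj w) hre'
        rw [him'] at h2
        have h3 := hTb' w hre
        have h4 := hTb' (-conj w) hre'
        rw [him'] at h4
        obtain ⟨h5, h6⟩ := hFle w hX
        have h7 := ptw (F0 w) (F0 (-conj w)) (T w) (T (-conj w)) (TT g w - F0 w * T w)
          (TT g (-conj w) - F0 (-conj w) * T (-conj w)) Ck P τ (1 / (1 + |w.im|)) (1 / (1 + |w.im - γ|))
          hCk.le hPp.le hτ0.le hτ1 (by positivity) (by positivity) h5 h6 h3 h4 h1 h2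
        rw [add_sub_cancel, add_sub_cancel] at h7
        have h8 := main_part hc0 hκp (hzero w hX)
        have h9 : (if F0 w = 0 then 0 else -c0 : ℝ) ≤ (if ρ = (⟨1 / 2 + w0, hρ0⟩ : Zt) then -c0 else 0 : ℝ) := by
          by_cases hρ : ρ = (⟨1 / 2 + w0, hρ0⟩ : Zt)
          · have e : w = w0 := by rw [hw, hρ]; ring
            rw [if_pos hρ, if_neg (by rw [e]; exact hFw0)]
          · rw [if_neg hρ]
            split_ifs <;> linarith
        have h10 : (1 / (1 + |w.im|) + 1 / (1 + |w.im - γ|)) ^ 2 ≤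
            2 * (1 / (1 + (w.im - 0) ^ 2) + 1 / (1 + (w.im - γ) ^ 2)) := by
          have g1 := pq w.im
          have g2 := pq (w.im - γ)
          rw [sub_zero]
          nlinarith [sq_nonneg (1 / (1 + |w.im|) - 1 / (1 + |w.im - γ|))]
        have h11 : (2 * Ck * P + P ^ 2) * τ * (1 / (1 + |w.im|) + 1 / (1 + |w.im - γ|)) ^ 2 ≤
            2 * (2 * Ck * P + P ^ 2) * τ * (1 / (1 + (w.im - 0) ^ 2) + 1 / (1 + (w.im - γ) ^ 2)) := by
          have := mul_le_mul_of_nonneg_left h10 (by positivity : 0 ≤ (2 * Ck * P + P ^ 2) * τ)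
          linarith
        rw [← him]
        calc (GG g g w).re = (TT g w * conj (TT g (-conj w))).re := rfl
          _ ≤ _ := h7
          _ ≤ _ := add_le_add (h8.trans h9) h11)
    refine hmain.trans ?_
    refine add_le_add le_rfl ?_
    have h1 : 2 * (2 * Ck * P + P ^ 2) * Kz * 4 ≤ CQ * Real.exp ((B1 + 4) * a) := by
      have h2 : 2 * Ck * P + P ^ 2 ≤ (2 * Ck * P0 + P0 ^ 2) * Real.exp (4 * a) := by
        have h3 : Real.exp (2 * a) ≤ Real.exp (4 * a) := by
          apply Real.exp_le_exp.2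
          linarith
        have h4 : Real.exp (2 * a) ^ 2 = Real.exp (4 * a) := by
          rw [← Real.exp_nat_mul]; congr 1; push_cast; ring
        have h5 : 2 * Ck * P ≤ 2 * Ck * P0 * Real.exp (4 * a) := by
          rw [hP]
          have : 0 ≤ 2 * Ck * P0 := by positivity
          nlinarith
        have h6 : P ^ 2 = P0 ^ 2 * Real.exp (4 * a) := by
          rw [hP, mul_pow, h4]
        rw [h6]
        linarith
      calc _ ≤ 2 * ((2 * Ck * P0 + P0 ^ 2) * Real.exp ((B1 + 4) * a)) * Kz * 4 := by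
            refine mul_le_mul_of_nonneg_right (mul_le_mul_of_nonneg_right (mul_le_mul_of_nonneg_left (h2.trans ?_) (by norm_num)) hKz.le) (by norm_num)
            exact mul_le_mul_of_nonneg_left hexp4 (by positivity)
        _ = _ := by rw [hCQ]; ring
    have h2 : CQ * Real.exp ((B1 + 4) * a) ≤ (CN + CQ) * Real.exp ((B1 + 4) * a) := by
      refine mul_le_mul_of_nonneg_right (by linarith) (Real.exp_pos _).le
    have h3 : 0 ≤ (1 + |γ|) * τ := by positivity
    calc 2 * (2 * Ck * P + P ^ 2) * Kz * 4 * (1 + |γ|) * τ = (2 * (2 * Ck * P + P ^ 2) * Kz * 4) * ((1 + |γ|) * τ) := by ring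
      _ ≤ ((CN + CQ) * Real.exp ((B1 + 4) * a)) * ((1 + |γ|) * τ) := mul_le_mul_of_nonneg_right (h1.trans h2) h3
      _ ≤ Real.exp ((B1 + 4 + (CN + CQ)) * (1 + a + |k|)) * ((1 + |γ|) * τ) := mul_le_mul_of_nonneg_right hfin h3
      _ = _ := by ring

end Pool.Agent.Q149.EW
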